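import Mathlib

/-!
# Packings by congruent copies of a planar convex body, and the packing density
-/

set_option autoImplicit false

namespace Pool.H94.DL

open Set MeasureTheory Filter Topology Metric

/-- The images `e i '' K` of `K` under the isometries `e i` have pairwise disjoint interiors. -/
def IsPacking {E ι : Type} [MetricSpace E] (K : Set E) (e : ι → E ≃ᵢ E) : Prop :=
  Pairwise fun i j => Disjoint (interior (e i '' K)) (interior (e j '' K))

/-- The family of the images `e i '' K` has the density `d`: the sum of the areas of the sets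
`e i '' K ∩ B_r`, divided by `π r ^ 2`, has the limit `d` as `r → ∞`. -/
def HasDensity {E ι : Type} [NormedAddCommGroup E] [MeasureSpace E] (K : Set E) (e : ι → E ≃ᵢ E)
    (d : ℝ) : Prop :=
  Tendsto (fun r : ℝ => (∑' i, volume (e i '' K ∩ closedBall 0 r)).toReal / (Real.pi * r ^ 2))
    atTop (𝓝 d)

/-- The packing density of `K`: the supremum of the densities of all packings of isometric copies
of `K` whose density exists. -/
noncomputable def packingDensity {E : Type} [NormedAddCommGroup E] [MeasureSpace E] (K : Set E) :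
    ℝ :=
  sSup {d | ∃ (ι : Type) (e : ι → E ≃ᵢ E), IsPacking K e ∧ HasDensity K e d}

/-- the Euclidean plane -/
abbrev E2 : Type := EuclideanSpace ℝ (Fin 2)

theorem vol_ball2 (r : ℝ) (hr : 0 ≤ r) :
    volume (closedBall (0 : E2) r) = ENNReal.ofReal (Real.pi * r ^ 2) := by
  rw [EuclideanSpace.volume_closedBall_fin_two, mul_comm, ENNReal.ofReal_mul Real.pi_pos.le,
    ENNReal.ofReal_pow hr]

theorem convex_image {K : Set E2} (hK : Convex ℝ K) (e : E2 ≃ᵢ E2) : Convex ℝ (e '' K) := by
  have h := hK.affine_image
    (e.toRealAffineIsometryEquiv.toAffineEquiv : E2 →ᵃ[ℝ] E2)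
  simpa using h

theorem tsum_le_ball {K : Set E2} (hK : Convex ℝ K) {ι : Type} {e : ι → E2 ≃ᵢ E2}
    (he : IsPacking K e) (r : ℝ) :
    ∑' i, volume (e i '' K ∩ closedBall 0 r) ≤ volume (closedBall (0 : E2) r) := by
  rw [ENNReal.tsum_eq_iSup_sum]
  refine iSup_le fun s => ?_
  have h1 : ∀ i, volume (e i '' K ∩ closedBall 0 r) =
      volume (interior (e i '' K) ∩ closedBall 0 r) := by
    intro i
    have h2 : volume (frontier (e i '' K)) = 0 := (convex_image hK (e i)).addHaar_frontier volume
    refine le_antisymm ?_ (measure_mono (inter_subset_inter_left _ interior_subset))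
    calc volume (e i '' K ∩ closedBall 0 r)
        ≤ volume ((interior (e i '' K) ∩ closedBall 0 r) ∪ frontier (e i '' K)) := by
          refine measure_mono ?_
          rintro z ⟨hz1, hz2⟩
          by_cases h3 : z ∈ interior (e i '' K)
          · exact Or.inl ⟨h3, hz2⟩
          · exact Or.inr ⟨subset_closure hz1, h3⟩
      _ ≤ volume (interior (e i '' K) ∩ closedBall 0 r) + volume (frontier (e i '' K)) :=
          measure_union_le _ _
      _ = volume (interior (e i '' K) ∩ closedBall 0 r) := by rw [h2, add_zero]
  simp_rw [h1]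
  rw [← measure_biUnion_finset]
  · refine measure_mono (iUnion₂_subset fun i _ => inter_subset_right)
  · intro i _ j _ hij
    exact (he hij).mono inter_subset_left inter_subset_left
  · intro i _
    exact isOpen_interior.measurableSet.inter measurableSet_closedBall

theorem density_le_one {K : Set E2} (hK : Convex ℝ K) {ι : Type} {e : ι → E2 ≃ᵢ E2}
    (he : IsPacking K e) {d : ℝ} (hd : HasDensity K e d) : d ≤ 1 := by
  refine le_of_tendsto hd ?_
  filter_upwards [eventually_gt_atTop 0] with r hr
  rw [div_le_one (by positivity)]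
  refine ENNReal.toReal_le_of_le_ofReal (by positivity) ?_
  rw [← vol_ball2 r hr.le]
  exact tsum_le_ball hK he r

theorem le_packingDensity {K : Set E2} (hK : Convex ℝ K) {ι : Type} {e : ι → E2 ≃ᵢ E2}
    (he : IsPacking K e) {d : ℝ} (hd : HasDensity K e d) : d ≤ packingDensity K :=
  le_csSup ⟨1, fun _ ⟨_, _, h1, h2⟩ => density_le_one hK h1 h2⟩ ⟨ι, e, he, hd⟩

end Pool.H94.DL
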