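import Pool.Agent.H94.DL.Ext

/-!
# Existence of half-length parallelograms
-/

set_option autoImplicit false

namespace Pool.H94.DL

open Set

variable {K : Set ℂ} {o p q : ℂ}

/-- The parallelogram with vertex `o` and sides `p, q` is the half-length parallelogram of the
longest chord from `a` to `a + 2 p`. -/
structure HL (K : Set ℂ) (a o p q : ℂ) : Prop where
  ma : a ∈ K
  mb : a + 2 * p ∈ K
  np : ¬ NN K p
  ins : Ins K o p q
  pos : 0 < cr p q
  lo : cr p o ≤ cr p a
  hi : cr p a ≤ cr p (o + q)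

theorem cr_add (p x y : ℂ) : cr p (x + y) = cr p x + cr p y := by
  unfold cr; simp; ring

theorem cr_smul (p x : ℂ) (t : ℝ) : cr p (t * x) = t * cr p x := by
  unfold cr; simp; ring

theorem cr_self (p : ℂ) : cr p p = 0 := by
  unfold cr; ring

theorem cr_neg (p x : ℂ) : cr (-p) x = -cr p x := by
  unfold cr; simp; ring

theorem continuous_cr (p : ℂ) : Continuous (cr p) := by
  unfold cr; fun_prop

/-- There is a point of `K` strictly lower than an interior point. -/
theorem exists_lower {z : ℂ} (hp : p ≠ 0) (hz : z ∈ interior K) : ∃ y ∈ K, cr p y < cr p z := by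
  obtain ⟨r, hr, hb⟩ := Metric.isOpen_iff.1 isOpen_interior z hz
  have hpn : 0 < ‖p‖ := norm_pos_iff.2 hp
  refine ⟨z - ((r / 2 / ‖p‖ : ℝ) : ℂ) * (Complex.I * p), interior_subset (hb ?_), ?_⟩
  · rw [Metric.mem_ball, dist_eq_norm, sub_sub_cancel_left, norm_neg, norm_mul, norm_mul,
      Complex.norm_I, one_mul, Complex.norm_real, Real.norm_of_nonneg (by positivity)]
    rw [div_mul_cancel₀ _ hpn.ne']
    linarith
  · have h1 : cr p (Complex.I * p) = ‖p‖ ^ 2 := by
      rw [← Complex.normSq_eq_norm_sq, Complex.normSq_apply]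
      unfold cr
      simp
    rw [sub_eq_add_neg, ← neg_mul, ← Complex.ofReal_neg, cr_add, cr_smul, h1]
    have : 0 < r / 2 / ‖p‖ * ‖p‖ ^ 2 := by positivity
    linarith

/-- extension of `K` beyond an interior point -/
theorem exists_ext {z : ℂ} (hz : z ∈ interior K) (v : ℂ) : ∃ η : ℝ, 0 < η ∧ z + η * v ∈ K := by
  have h1 : Filter.Tendsto (fun t : ℝ => z + t * v) (nhds 0) (nhds z) := by
    have : Continuous fun t : ℝ => z + t * v := by fun_prop
    simpa using this.tendsto 0
  have h2 := h1.eventually (isOpen_interior.mem_nhds hz)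
  obtain ⟨ε, hε, h3⟩ := Metric.eventually_nhds_iff.1 h2
  refine ⟨ε / 2, by linarith, interior_subset (h3 ?_)⟩
  rw [Real.dist_eq, sub_zero, abs_of_pos (by linarith)]
  linarith

theorem lowest_not_interior (hK : Convex ℝ K) (hp : p ≠ 0) (h0 : o ∈ K) (h1 : o + p ∈ K)
    (hmin : ∀ z ∈ K, z + p ∈ K → cr p o ≤ cr p z) :
    o ∉ interior K ∧ o + p ∉ interior K := by
  constructor
  · intro hi
    obtain ⟨y, hy, hlt⟩ := exists_lower hp hi
    obtain ⟨η, hη, he⟩ := exists_ext hi (-p)
    have hpos : (0 : ℝ) < 1 + η := by linarith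
    have hc : ((1 + η : ℝ) : ℂ) ≠ 0 := by exact_mod_cast hpos.ne'
    have e1 := hK he hy (a := 1 / (1 + η)) (b := η / (1 + η)) (by positivity) (by positivity)
      (by field_simp)
    have e2 := hK h1 hy (a := 1 / (1 + η)) (b := η / (1 + η)) (by positivity) (by positivity)
      (by field_simp)
    have e3 := hmin _ e1 (by
      convert e2 using 1
      simp only [Complex.real_smul]
      push_cast at hc ⊢
      field_simp
      ring)
    simp only [Complex.real_smul] at e3
    rw [cr_add, cr_smul, cr_smul, cr_add, cr_smul] at e3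
    have e4 : cr p (-p) = 0 := by unfold cr; simp; ring
    rw [e4, mul_zero, add_zero] at e3
    have e5 : 1 / (1 + η) * cr p o + η / (1 + η) * cr p y < cr p o := by
      rw [div_mul_eq_mul_div, div_mul_eq_mul_div, ← add_div, div_lt_iff₀ hpos]
      nlinarith
    linarith
  · intro hi
    obtain ⟨y, hy, hlt⟩ := exists_lower hp hi
    rw [cr_add, cr_self, add_zero] at hlt
    obtain ⟨η, hη, he⟩ := exists_ext hi p
    have hpos : (0 : ℝ) < 1 + η := by linarith
    have hc : ((1 + η : ℝ) : ℂ) ≠ 0 := by exact_mod_cast hpos.ne'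
    have e1 := hK h0 hy (a := 1 / (1 + η)) (b := η / (1 + η)) (by positivity) (by positivity)
      (by field_simp)
    have e2 := hK he hy (a := 1 / (1 + η)) (b := η / (1 + η)) (by positivity) (by positivity)
      (by field_simp)
    have e3 := hmin _ e1 (by
      convert e2 using 1
      simp only [Complex.real_smul]
      push_cast at hc ⊢
      field_simp
      ring)
    simp only [Complex.real_smul] at e3
    rw [cr_add, cr_smul, cr_smul] at e3
    have e5 : 1 / (1 + η) * cr p o + η / (1 + η) * cr p y < cr p o := by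
      rw [div_mul_eq_mul_div, div_mul_eq_mul_div, ← add_div, div_lt_iff₀ hpos]
      nlinarith
    linarith

/-- Every longest chord has a half-length parallelogram. -/
theorem exists_HL (hK : Convex ℝ K) (hk : IsCompact K) (hi : (interior K).Nonempty) {a : ℂ}
    (hp : p ≠ 0) (ha : a ∈ K) (hb : a + 2 * p ∈ K) (hn : ¬ NN K p) : ∃ o q, HL K a o p q := by
  set S : Set ℂ := K ∩ {z | z + p ∈ K} with hS
  have hSc : IsCompact S := by
    refine hk.inter_right ?_
    exact hk.isClosed.preimage (continuous_id.add continuous_const)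
  have haS : a ∈ S := by
    refine ⟨ha, ?_⟩
    have := hK ha hb (a := 1 / 2) (b := 1 / 2) (by norm_num) (by norm_num) (by norm_num)
    show a + p ∈ K
    convert this using 1
    simp
    ring
  obtain ⟨o, hoS, ho⟩ := hSc.exists_isMinOn ⟨a, haS⟩ (continuous_cr p).continuousOn
  obtain ⟨t, htS, ht⟩ := hSc.exists_isMaxOn ⟨a, haS⟩ (continuous_cr p).continuousOn
  have ho' : ∀ z ∈ S, cr p o ≤ cr p z := fun z hz => ho hz
  have ht' : ∀ z ∈ S, cr p z ≤ cr p t := fun z hz => ht hz
  -- strict inequality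
  have hlt : cr p o < cr p t := by
    obtain ⟨c, hc⟩ := hi
    have key : ∀ y ∈ K, cr p ((a + y) / 2) ≤ cr p t ∧ cr p o ≤ cr p ((a + y) / 2) := by
      intro y hy
      have hm : (a + y) / 2 ∈ S := by
        constructor
        · have := hK ha hy (a := 1 / 2) (b := 1 / 2) (by norm_num) (by norm_num) (by norm_num)
          convert this using 1
          simp
          ring
        · have := hK hb hy (a := 1 / 2) (b := 1 / 2) (by norm_num) (by norm_num) (by norm_num)
          show (a + y) / 2 + p ∈ K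
          convert this using 1
          simp
          ring
      exact ⟨ht' _ hm, ho' _ hm⟩
    have half : ∀ y, cr p ((a + y) / 2) = (cr p a + cr p y) / 2 := by
      intro y
      have : (a + y) / 2 = ((1 / 2 : ℝ) : ℂ) * a + ((1 / 2 : ℝ) : ℂ) * y := by push_cast; ring
      rw [this, cr_add, cr_smul, cr_smul]
      ring
    obtain ⟨y, hy, hyc⟩ := exists_lower hp hc
    obtain ⟨k1, k2⟩ := key y hy
    obtain ⟨k3, k4⟩ := key c (interior_subset hc)
    rw [half] at k1 k2 k3 k4
    linarith
  have l1 := lowest_not_interior hK hp hoS.1 hoS.2 fun z h1 h2 => ho' z ⟨h1, h2⟩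
  have l2 := lowest_not_interior (o := t + p) (p := -p) hK (neg_ne_zero.2 hp) htS.2
    (by rw [add_neg_cancel_right]; exact htS.1) (by
      intro z h1 h2
      have h3 := ht' (z + -p) ⟨h2, by show z + -p + p ∈ K; rw [neg_add_cancel_right]; exact h1⟩
      rw [cr_neg, cr_neg, cr_add, cr_self, add_zero]
      have h4 : cr p (z + -p) = cr p z := by
        rw [cr_add]
        have : cr p (-p) = 0 := by unfold cr; simp; ring
        rw [this, add_zero]
      rw [h4] at h3
      linarith)
  rw [add_neg_cancel_right] at l2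
  refine ⟨o, t - o, ha, hb, hn, ⟨hoS.1, hoS.2, ?_, ?_, l1.1, l1.2, ?_, ?_⟩, ?_, ho' a haS, ?_⟩
  · rw [add_sub_cancel]; exact htS.1
  · have : o + p + (t - o) = t + p := by ring
    rw [this]; exact htS.2
  · rw [add_sub_cancel]; exact l2.2
  · have : o + p + (t - o) = t + p := by ring
    rw [this]; exact l2.1
  · rw [sub_eq_add_neg, cr_add]
    have : cr p (-o) = -cr p o := by unfold cr; simp; ring
    rw [this]
    linarith
  · rw [add_sub_cancel]; exact ht' a haS

/-- In every direction there is a longest chord. -/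
theorem exists_chord (hk : IsCompact K) (hi : (interior K).Nonempty) {d : ℂ} (hd : d ≠ 0) :
    ∃ (t : ℝ) (a : ℂ), 0 < t ∧ a ∈ K ∧ a + 2 * (t * d) ∈ K ∧
      (∀ (s : ℝ) (b : ℂ), b ∈ K → b + 2 * (s * d) ∈ K → s ≤ t) ∧ ¬ NN K (t * d) := by
  obtain ⟨c, hc⟩ := hi
  -- the compact set of all chords
  set T : Set (ℂ × ℝ) := {x | x.1 ∈ K ∧ x.1 + 2 * (x.2 * d) ∈ K} with hT
  obtain ⟨R, hR⟩ := hk.isBounded.subset_closedBall 0
  have hbd : ∀ x ∈ T, |x.2| ≤ R / ‖d‖ := by
    rintro ⟨b, s⟩ ⟨h1, h2⟩
    have h3 := hR h1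
    have h4 := hR h2
    rw [Metric.mem_closedBall, dist_zero_right] at h3 h4
    have h5 : ‖2 * ((s : ℂ) * d)‖ ≤ R + R := by
      calc ‖2 * ((s : ℂ) * d)‖ = ‖(b + 2 * (s * d)) - b‖ := by congr 1; ring
        _ ≤ ‖b + 2 * (s * d)‖ + ‖b‖ := norm_sub_le _ _
        _ ≤ R + R := add_le_add h4 h3
    rw [norm_mul, norm_mul, Complex.norm_ofNat, Complex.norm_real, Real.norm_eq_abs] at h5
    show |s| ≤ R / ‖d‖
    rw [le_div_iff₀ (norm_pos_iff.2 hd)]
    linarith
  have hTc : IsCompact T := by
    refine (hk.prod (isCompact_Icc (a := -(R / ‖d‖)) (b := R / ‖d‖))).of_isClosed_subset ?_ ?_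
    · refine IsClosed.inter (hk.isClosed.preimage continuous_fst) (hk.isClosed.preimage ?_)
      fun_prop
    · intro x hx
      exact ⟨hx.1, abs_le.1 (hbd x hx)⟩
  obtain ⟨⟨a, t⟩, ⟨h1, h2⟩, h3⟩ := hTc.exists_isMaxOn ⟨(c, 0), interior_subset hc, by
    simpa using interior_subset hc⟩ continuous_snd.continuousOn
  have h3' : ∀ (s : ℝ) (b : ℂ), b ∈ K → b + 2 * (s * d) ∈ K → s ≤ t :=
    fun s b hb1 hb2 => h3 (show (b, s) ∈ T from ⟨hb1, hb2⟩)
  refine ⟨t, a, ?_, h1, h2, h3', ?_⟩
  · obtain ⟨η, hη, he⟩ := exists_ext hc (2 * d)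
    have := h3' η c (interior_subset hc) (by
      convert he using 1
      ring)
    linarith
  · rintro ⟨x, hx, hy⟩
    obtain ⟨η, hη, he⟩ := exists_ext hy (2 * d)
    have := h3' (t + η) x (interior_subset hx) (by
      convert he using 1
      push_cast
      ring)
    linarith

end Pool.H94.DL
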