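import Pool.Agent.H94.DL.Trans

/-!
# Half-length parallelograms are extensive
-/

set_option autoImplicit false

namespace Pool.H94.DL

open Set

variable {K : Set ℂ} {o p q : ℂ}

theorem Ins.flip' (h : Ins K o p q) : Ins K (o + p) (-p) q where
  m00 := h.m10
  m10 := by rw [add_neg_cancel_right]; exact h.m00
  m01 := h.m11
  m11 := by rw [add_neg_cancel_right]; exact h.m01
  i00 := h.i10
  i10 := by rw [add_neg_cancel_right]; exact h.i00
  i01 := h.i11
  i11 := by rw [add_neg_cancel_right]; exact h.i01

/-- a vertical chord of length two left of the parallelogram -/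
theorem Ins.left_false (hK : Convex ℝ K) (h : Ins K o p q) {s t : ℝ} (hs : s ≤ 0)
    (hx : o + s * p + t * q ∈ interior K) (hy : o + s * p + (t + 2 : ℝ) * q ∈ interior K) :
    False := by
  rcases le_or_gt t (-2) with h1 | h1
  · -- the corner `o`
    have hpos : (0 : ℝ) < 1 - s - (t + 2) := by linarith
    have hc : ((1 - s - (t + 2) : ℝ) : ℂ) ≠ 0 := by exact_mod_cast hpos.ne'
    have := combo3 hK hy h.m10 h.m01 (a := 1 / (1 - s - (t + 2))) (b := -s / (1 - s - (t + 2)))
      (c := -(t + 2) / (1 - s - (t + 2))) (by positivity) (div_nonneg (by linarith) hpos.le)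
      (div_nonneg (by linarith) hpos.le) (by field_simp; ring)
    refine h.i00 ?_
    convert this using 1
    push_cast at hc ⊢
    field_simp
    ring
  rcases le_or_gt t 0 with h2 | h2
  · -- the point `(s, 0)`
    have e1 := combo2 hK hx (interior_subset hy) (a := (t + 2) / 2) (b := -t / 2) (by linarith)
      (by linarith) (by ring)
    have e2 : o + s * p + (0 : ℝ) * q ∈ interior K := by
      convert e1 using 1
      push_cast
      ring
    have hpos : (0 : ℝ) < 1 - s := by linarith
    have hc : ((1 - s : ℝ) : ℂ) ≠ 0 := by exact_mod_cast hpos.ne'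
    have := combo2 hK e2 h.m10 (a := 1 / (1 - s)) (b := -s / (1 - s)) (by positivity)
      (div_nonneg (by linarith) hpos.le) (by field_simp; ring)
    refine h.i00 ?_
    convert this using 1
    push_cast at hc ⊢
    field_simp
    ring
  rcases lt_or_ge t 1 with h3 | h3
  · -- the point `(s, 1)`
    have e1 := combo2 hK hx (interior_subset hy) (a := (t + 1) / 2) (b := (1 - t) / 2)
      (by linarith) (by linarith) (by ring)
    have e2 : o + s * p + (1 : ℝ) * q ∈ interior K := by
      convert e1 using 1
      push_cast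
      ring
    have hpos : (0 : ℝ) < 1 - s := by linarith
    have hc : ((1 - s : ℝ) : ℂ) ≠ 0 := by exact_mod_cast hpos.ne'
    have := combo2 hK e2 h.m11 (a := 1 / (1 - s)) (b := -s / (1 - s)) (by positivity)
      (div_nonneg (by linarith) hpos.le) (by field_simp; ring)
    refine h.i01 ?_
    convert this using 1
    push_cast at hc ⊢
    field_simp
    ring
  · have hpos : (0 : ℝ) < t - s := by linarith
    have hc : ((t - s : ℝ) : ℂ) ≠ 0 := by exact_mod_cast hpos.ne'
    have := combo3 hK hx h.m11 h.m00 (a := 1 / (t - s)) (b := -s / (t - s))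
      (c := (t - 1) / (t - s)) (by positivity) (div_nonneg (by linarith) hpos.le)
      (div_nonneg (by linarith) hpos.le) (by field_simp; ring)
    refine h.i01 ?_
    convert this using 1
    push_cast at hc ⊢
    field_simp
    ring

/-- a vertical chord of length two in the middle, the left end of the long chord is far -/
theorem Ins.mid_false (hK : Convex ℝ K) (h : Ins K o p q) {s t u v : ℝ} (hs : 0 < s)
    (hx : o + s * p + t * q ∈ interior K) (hy : o + s * p + (t + 2 : ℝ) * q ∈ interior K)
    (hu : u ≤ -s) (ha : o + u * p + v * q ∈ K) : False := by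
  have hpos : (0 : ℝ) < s - u := by linarith
  have hc : ((s - u : ℝ) : ℂ) ≠ 0 := by exact_mod_cast hpos.ne'
  have hlen : 1 ≤ 2 * (-u / (s - u)) := by
    rw [← mul_div_assoc, le_div_iff₀ hpos]; linarith
  -- lower and upper end of the section
  have e1 := combo2 hK hx ha (a := -u / (s - u)) (b := s / (s - u)) (div_pos (by linarith) hpos)
    (by positivity) (by field_simp; ring)
  have e2 := combo2 hK hy ha (a := -u / (s - u)) (b := s / (s - u)) (div_pos (by linarith) hpos)
    (by positivity) (by field_simp; ring)
  set zb := -u / (s - u) * t + s / (s - u) * v with hzb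
  have e3 : o + (zb : ℂ) * q ∈ interior K := by
    convert e1 using 1
    rw [hzb]
    push_cast at hc ⊢
    field_simp
    ring
  have e4 : o + ((zb + 2 * (-u / (s - u)) : ℝ) : ℂ) * q ∈ interior K := by
    convert e2 using 1
    rw [hzb]
    push_cast at hc ⊢
    field_simp
    ring
  set zt := zb + 2 * (-u / (s - u)) with hzt
  rcases le_or_gt 1 zt with h1 | h1
  · have hz : (0 : ℝ) < zt := by linarith
    have hzc : (zt : ℂ) ≠ 0 := by exact_mod_cast hz.ne'
    have := combo2 hK e4 h.m00 (a := 1 / zt) (b := (zt - 1) / zt) (by positivity)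
      (div_nonneg (by linarith) hz.le) (by field_simp; ring)
    refine h.i01 ?_
    convert this using 1
    push_cast
    field_simp
    ring
  · have hz : zb < 0 := by linarith
    have hz' : (0 : ℝ) < 1 - zb := by linarith
    have hzc : ((1 - zb : ℝ) : ℂ) ≠ 0 := by exact_mod_cast hz'.ne'
    have := combo2 hK e3 h.m01 (a := 1 / (1 - zb)) (b := -zb / (1 - zb)) (by positivity)
      (div_nonneg (by linarith) hz'.le) (by field_simp; ring)
    refine h.i00 ?_
    convert this using 1
    push_cast at hzc ⊢
    field_simp
    ring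

/-- If `K` has a chord `2 p`, then `q` is at least half of the longest chord in its direction. -/
theorem Ins.not_NN (hK : Convex ℝ K) (h : Ins K o p q) (hpq : cr p q ≠ 0) {a : ℂ} (ha : a ∈ K)
    (hb : a + 2 * p ∈ K) : ¬ NN K q := by
  rintro ⟨x, hx, hy⟩
  obtain ⟨s, t, hst⟩ := exists_coord hpq (x - o)
  obtain ⟨u, v, huv⟩ := exists_coord hpq (a - o)
  have ex : x = o + s * p + t * q := by rw [add_assoc, ← hst]; ring
  have ey : x + 2 * q = o + s * p + (t + 2 : ℝ) * q := by
    rw [ex]; push_cast; ring
  have ea : a = o + u * p + v * q := by rw [add_assoc, ← huv]; ring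
  have eb : a + 2 * p = (o + p) + (-1 - u : ℝ) * (-p) + v * q := by
    rw [ea]; push_cast; ring
  have ex' : x = (o + p) + (1 - s : ℝ) * (-p) + t * q := by rw [ex]; push_cast; ring
  have ey' : x + 2 * q = (o + p) + (1 - s : ℝ) * (-p) + (t + 2 : ℝ) * q := by
    rw [ex]; push_cast; ring
  rcases le_or_gt s 0 with h1 | h1
  · rw [ey] at hy
    rw [ex] at hx
    exact h.left_false hK h1 hx hy
  rcases le_or_gt 1 s with h2 | h2
  · rw [ey'] at hy
    rw [ex'] at hx
    exact h.flip'.left_false hK (by linarith) hx hy
  rcases le_or_gt u (-s) with h3 | h3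
  · rw [ey] at hy
    rw [ex] at hx
    rw [ea] at ha
    exact h.mid_false hK h1 hx hy h3 ha
  · rw [ey'] at hy
    rw [ex'] at hx
    rw [eb] at hb
    exact h.flip'.mid_false hK (by linarith) hx hy (by linarith) hb

end Pool.H94.DL
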