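import Pool.Agent.H94.DL.Pack

/-!
# The density of a lattice arrangement
-/

set_option autoImplicit false

namespace Pool.H94.DL

open Set MeasureTheory Filter Topology Metric

/-- lattice points -/
def lat (v w : ℂ) (i : ℤ × ℤ) : ℂ := i.1 * v + i.2 * w

/-- fundamental parallelogram -/
def cell (v w : ℂ) : Set ℂ :=
  {z | ∃ s t : ℝ, s ∈ Ico (0 : ℝ) 1 ∧ t ∈ Ico (0 : ℝ) 1 ∧ z = s * v + t * w}

/-- the linear map with `1 ↦ v`, `I ↦ w` -/
noncomputable def lmap (v w : ℂ) : ℂ →ₗ[ℝ] ℂ :=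
  Matrix.toLin Complex.basisOneI Complex.basisOneI !![v.re, w.re; v.im, w.im]

theorem lmap_det (v w : ℂ) : LinearMap.det (lmap v w) = cr v w := by
  unfold lmap
  rw [LinearMap.det_toLin, Matrix.det_fin_two_of, cr]
  ring

theorem lmap_apply (v w z : ℂ) : lmap v w z = z.re * v + z.im * w := by
  unfold lmap
  rw [Matrix.toLin_apply]
  apply Complex.ext
  · simp [Matrix.mulVec, Fin.sum_univ_two, dotProduct, Complex.coe_basisOneI_repr]
    ring
  · simp [Matrix.mulVec, Fin.sum_univ_two, dotProduct, Complex.coe_basisOneI_repr]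
    ring

theorem cell_base : {z : ℂ | z.re ∈ Ico (0 : ℝ) 1 ∧ z.im ∈ Ico (0 : ℝ) 1} =
    Complex.measurableEquivRealProd ⁻¹' (Ico (0 : ℝ) 1 ×ˢ Ico (0 : ℝ) 1) := by
  ext z
  simp [Complex.measurableEquivRealProd_apply]

theorem cell_eq (v w : ℂ) :
    cell v w = lmap v w '' {z : ℂ | z.re ∈ Ico (0 : ℝ) 1 ∧ z.im ∈ Ico (0 : ℝ) 1} := by
  ext z
  constructor
  · rintro ⟨s, t, hs, ht, rfl⟩
    exact ⟨⟨s, t⟩, ⟨hs, ht⟩, by rw [lmap_apply]⟩
  · rintro ⟨u, ⟨h1, h2⟩, rfl⟩
    exact ⟨u.re, u.im, h1, h2, by rw [lmap_apply]⟩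

theorem measurable_cell {v w : ℂ} (h : cr v w ≠ 0) : MeasurableSet (cell v w) := by
  rw [cell_eq]
  have hdet : LinearMap.det (lmap v w) ≠ 0 := by rw [lmap_det]; exact h
  have hb : MeasurableSet {z : ℂ | z.re ∈ Ico (0 : ℝ) 1 ∧ z.im ∈ Ico (0 : ℝ) 1} := by
    rw [cell_base]
    exact Complex.measurableEquivRealProd.measurable (measurableSet_Ico.prod measurableSet_Ico)
  let e := (LinearMap.equivOfDetNeZero (lmap v w) hdet).toContinuousLinearEquiv
  have he : (lmap v w : ℂ → ℂ) = e := by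
    ext z; rfl
  rw [he]
  exact e.toHomeomorph.toMeasurableEquiv.measurableSet_image.2 hb

theorem volume_cell (v w : ℂ) : volume (cell v w) = ENNReal.ofReal |cr v w| := by
  rw [cell_eq, Measure.addHaar_image_linearMap, lmap_det, cell_base,
    Complex.volume_preserving_equiv_real_prod.measure_preimage_equiv, Measure.volume_eq_prod,
    Measure.prod_prod, Real.volume_Ico]
  simp

theorem coord_unique {v w : ℂ} (h : cr v w ≠ 0) {s t s' t' : ℝ}
    (he : (s : ℂ) * v + t * w = s' * v + t' * w) : s = s' ∧ t = t' := by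
  have h1 := congrArg Complex.re he
  have h2 := congrArg Complex.im he
  simp only [Complex.add_re, Complex.mul_re, Complex.ofReal_re, Complex.ofReal_im, zero_mul,
      sub_zero, Complex.add_im, Complex.mul_im, add_zero] at h1 h2
  unfold cr at h
  constructor
  · have : (s - s') * (v.re * w.im - v.im * w.re) = 0 := by
      linear_combination w.im * h1 - w.re * h2
    rcases mul_eq_zero.1 this with h3 | h3
    · linarith
    · exact absurd h3 h
  · have : (t - t') * (v.re * w.im - v.im * w.re) = 0 := by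
      linear_combination v.re * h2 - v.im * h1
    rcases mul_eq_zero.1 this with h3 | h3
    · linarith
    · exact absurd h3 h

/-- translate -/
def tr (l : ℂ) (K : Set ℂ) : Set ℂ := (fun z => z + l) '' K

theorem mem_tr {l z : ℂ} {K : Set ℂ} : z ∈ tr l K ↔ z - l ∈ K := by
  constructor
  · rintro ⟨y, hy, rfl⟩
    simpa using hy
  · intro h
    exact ⟨z - l, h, sub_add_cancel z l⟩

theorem tr_eq (l : ℂ) (K : Set ℂ) : tr l K = (fun z => z - l) ⁻¹' K := by
  ext z; exact mem_tr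

theorem volume_tr (l : ℂ) (K : Set ℂ) : volume (tr l K) = volume K := by
  rw [tr_eq]
  simp [sub_eq_add_neg]

theorem tsum_cell {v w : ℂ} (h : cr v w ≠ 0) (r : ℝ) :
    ∑' i, volume (tr (lat v w i) (cell v w) ∩ closedBall 0 r) = volume (closedBall (0 : ℂ) r) := by
  rw [← measure_iUnion]
  · congr 1
    rw [← iUnion_inter, inter_eq_right]
    intro z _
    obtain ⟨s, t, hst⟩ := exists_coord h z
    refine mem_iUnion.2 ⟨(⌊s⌋, ⌊t⌋), mem_tr.2 ⟨Int.fract s, Int.fract t, ?_, ?_, ?_⟩⟩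
    · exact ⟨Int.fract_nonneg s, Int.fract_lt_one s⟩
    · exact ⟨Int.fract_nonneg t, Int.fract_lt_one t⟩
    · rw [hst, lat, Int.fract, Int.fract]
      push_cast
      ring
  · intro i j hij
    refine Disjoint.mono inter_subset_left inter_subset_left ?_
    rw [Set.disjoint_left]
    intro z h1 h2
    obtain ⟨s, t, hs, ht, e1⟩ := mem_tr.1 h1
    obtain ⟨s', t', hs', ht', e2⟩ := mem_tr.1 h2
    apply hij
    have e3 : ((s + i.1 : ℝ) : ℂ) * v + ((t + i.2 : ℝ) : ℂ) * w =
        ((s' + j.1 : ℝ) : ℂ) * v + ((t' + j.2 : ℝ) : ℂ) * w := by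
      have e4 : z = s * v + t * w + lat v w i := by rw [← e1]; ring
      have e5 : z = s' * v + t' * w + lat v w j := by rw [← e2]; ring
      rw [e4] at e5
      unfold lat at e5
      push_cast
      linear_combination e5
    obtain ⟨h3, h4⟩ := coord_unique h e3
    have h5 : ((i.1 - j.1 : ℤ) : ℝ) < 1 := by push_cast; linarith [hs.1, hs.2, hs'.1, hs'.2]
    have h6 : ((j.1 - i.1 : ℤ) : ℝ) < 1 := by push_cast; linarith [hs.1, hs.2, hs'.1, hs'.2]
    have h7 : ((i.2 - j.2 : ℤ) : ℝ) < 1 := by push_cast; linarith [ht.1, ht.2, ht'.1, ht'.2]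
    have h8 : ((j.2 - i.2 : ℤ) : ℝ) < 1 := by push_cast; linarith [ht.1, ht.2, ht'.1, ht'.2]
    have h5' : i.1 - j.1 < 1 := by exact_mod_cast h5
    have h6' : j.1 - i.1 < 1 := by exact_mod_cast h6
    have h7' : i.2 - j.2 < 1 := by exact_mod_cast h7
    have h8' : j.2 - i.2 < 1 := by exact_mod_cast h8
    exact Prod.ext (by omega) (by omega)
  · intro i
    refine MeasurableSet.inter ?_ measurableSet_closedBall
    rw [tr_eq]
    exact (measurable_cell h).preimage (measurable_id.sub_const _)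

/-- number of lattice points in a disk -/
noncomputable def cnt (v w : ℂ) (r : ℝ) : ENNReal :=
  ∑' i, (if ‖lat v w i‖ ≤ r then 1 else 0)

theorem upper_cnt {v w : ℂ} {K : Set ℂ} {R : ℝ} (hR : ∀ z ∈ K, ‖z‖ ≤ R) (r : ℝ) :
    ∑' i, volume (tr (lat v w i) K ∩ closedBall 0 r) ≤ volume K * cnt v w (r + R) := by
  rw [cnt, ← ENNReal.tsum_mul_left]
  refine ENNReal.tsum_le_tsum fun i => ?_
  split_ifs with h
  · rw [mul_one]
    exact (measure_mono inter_subset_left).trans (volume_tr _ _).le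
  · rw [mul_zero]
    have : tr (lat v w i) K ∩ closedBall 0 r = ∅ := by
      rw [Set.eq_empty_iff_forall_notMem]
      rintro z ⟨h1, h2⟩
      apply h
      have h3 := hR _ (mem_tr.1 h1)
      rw [mem_closedBall_zero_iff] at h2
      calc ‖lat v w i‖ = ‖z - (z - lat v w i)‖ := by congr 1; ring
        _ ≤ ‖z‖ + ‖z - lat v w i‖ := norm_sub_le _ _
        _ ≤ r + R := add_le_add h2 h3
    rw [this, measure_empty]

theorem lower_cnt {v w : ℂ} {K : Set ℂ} {R : ℝ} (hR : ∀ z ∈ K, ‖z‖ ≤ R) (r : ℝ) :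
    volume K * cnt v w (r - R) ≤ ∑' i, volume (tr (lat v w i) K ∩ closedBall 0 r) := by
  rw [cnt, ← ENNReal.tsum_mul_left]
  refine ENNReal.tsum_le_tsum fun i => ?_
  split_ifs with h
  · rw [mul_one]
    have : tr (lat v w i) K ⊆ closedBall 0 r := by
      intro z hz
      have h3 := hR _ (mem_tr.1 hz)
      rw [mem_closedBall_zero_iff]
      calc ‖z‖ = ‖(z - lat v w i) + lat v w i‖ := by congr 1; ring
        _ ≤ ‖z - lat v w i‖ + ‖lat v w i‖ := norm_add_le _ _
        _ ≤ R + (r - R) := add_le_add h3 h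
        _ = r := by ring
    rw [inter_eq_left.2 this, volume_tr]
  · rw [mul_zero]
    exact zero_le

theorem exists_bd (v w : ℂ) : ∀ z ∈ cell v w, ‖z‖ ≤ ‖v‖ + ‖w‖ := by
  rintro z ⟨s, t, hs, ht, rfl⟩
  calc ‖(s : ℂ) * v + t * w‖ ≤ ‖(s : ℂ) * v‖ + ‖(t : ℂ) * w‖ := norm_add_le _ _
    _ = s * ‖v‖ + t * ‖w‖ := by
      rw [norm_mul, norm_mul, Complex.norm_real, Complex.norm_real, Real.norm_of_nonneg hs.1,
        Real.norm_of_nonneg ht.1]
    _ ≤ 1 * ‖v‖ + 1 * ‖w‖ := by
      gcongr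
      · exact hs.2.le
      · exact ht.2.le
    _ = ‖v‖ + ‖w‖ := by ring

theorem vol_ball (r : ℝ) (hr : 0 ≤ r) :
    volume (closedBall (0 : ℂ) r) = ENNReal.ofReal (Real.pi * r ^ 2) := by
  rw [Complex.volume_closedBall, mul_comm, ENNReal.ofReal_mul Real.pi_pos.le,
    ENNReal.ofReal_pow hr]
  congr 1
  exact (ENNReal.ofReal_coe_nnreal (p := NNReal.pi)).symm

theorem cnt_le {v w : ℂ} (h : cr v w ≠ 0) {r : ℝ} (hr : 0 ≤ r + (‖v‖ + ‖w‖)) :
    cnt v w r ≤ ENNReal.ofReal (Real.pi * (r + (‖v‖ + ‖w‖)) ^ 2 / |cr v w|) := by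
  have h1 := lower_cnt (v := v) (w := w) (exists_bd v w) (r + (‖v‖ + ‖w‖))
  rw [tsum_cell h, vol_ball _ hr, volume_cell, add_sub_cancel_right] at h1
  have h2 : 0 < |cr v w| := abs_pos.2 h
  rw [ENNReal.ofReal_div_of_pos h2, ENNReal.le_div_iff_mul_le
    (Or.inl (ENNReal.ofReal_pos.2 h2).ne') (Or.inl ENNReal.ofReal_ne_top), mul_comm]
  exact h1

theorem le_cnt {v w : ℂ} (h : cr v w ≠ 0) {r : ℝ} (hr : 0 ≤ r - (‖v‖ + ‖w‖)) :
    ENNReal.ofReal (Real.pi * (r - (‖v‖ + ‖w‖)) ^ 2 / |cr v w|) ≤ cnt v w r := by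
  have h1 := upper_cnt (v := v) (w := w) (exists_bd v w) (r - (‖v‖ + ‖w‖))
  rw [tsum_cell h, vol_ball _ hr, volume_cell, sub_add_cancel] at h1
  have h2 : 0 < |cr v w| := abs_pos.2 h
  rw [ENNReal.ofReal_div_of_pos h2]
  exact ENNReal.div_le_of_le_mul' h1

/-- Density of a lattice arrangement of a bounded set. -/
theorem tendsto_lat {v w : ℂ} (h : cr v w ≠ 0) {K : Set ℂ} {R : ℝ} (hR : ∀ z ∈ K, ‖z‖ ≤ R)
    (hR0 : 0 ≤ R) :
    Tendsto (fun r : ℝ => (∑' i, volume (tr (lat v w i) K ∩ closedBall 0 r)).toReal /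
      (Real.pi * r ^ 2)) atTop (𝓝 ((volume K).toReal / |cr v w|)) := by
  have hfin : volume K ≠ ⊤ := by
    have : K ⊆ closedBall 0 R := fun z hz => mem_closedBall_zero_iff.2 (hR z hz)
    exact ((measure_mono this).trans_lt measure_closedBall_lt_top).ne
  set V := (volume K).toReal with hV
  set C := R + (‖v‖ + ‖w‖) with hC
  have hC0 : 0 ≤ C := by positivity
  have h2 : 0 < |cr v w| := abs_pos.2 h
  have hlim : ∀ c : ℝ, Tendsto (fun r : ℝ => V * (Real.pi * (r + c) ^ 2 / |cr v w|) /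
      (Real.pi * r ^ 2)) atTop (𝓝 (V / |cr v w|)) := by
    intro c
    have h3 : Tendsto (fun r : ℝ => V / |cr v w| * (1 + c / r) ^ 2) atTop
        (𝓝 (V / |cr v w| * (1 + 0) ^ 2)) := by
      refine Tendsto.const_mul _ (Tendsto.pow ?_ 2)
      exact tendsto_const_nhds.add (tendsto_const_nhds.div_atTop tendsto_id)
    rw [add_zero, one_pow, mul_one] at h3
    refine h3.congr' ?_
    filter_upwards [eventually_gt_atTop 0] with r hr
    have hpi := Real.pi_pos
    field_simp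
  refine tendsto_of_tendsto_of_tendsto_of_le_of_le' (hlim (-C)) (hlim C) ?_ ?_
  · filter_upwards [eventually_ge_atTop C, eventually_gt_atTop 0] with r hr hr0
    refine div_le_div_of_nonneg_right ?_ (by positivity)
    have h3 := lower_cnt (v := v) (w := w) hR r
    have h4 := le_cnt h (r := r - R) (by rw [hC] at hr; linarith)
    have h5 : ENNReal.ofReal (V * (Real.pi * (r + -C) ^ 2 / |cr v w|)) ≤
        ∑' i, volume (tr (lat v w i) K ∩ closedBall 0 r) := by
      refine le_trans ?_ h3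
      rw [ENNReal.ofReal_mul ENNReal.toReal_nonneg, ENNReal.ofReal_toReal hfin]
      refine mul_le_mul_right ?_ _
      have e : r + -C = r - R - (‖v‖ + ‖w‖) := by rw [hC]; ring
      rw [e]
      exact h4
    have h6 : ∑' i, volume (tr (lat v w i) K ∩ closedBall 0 r) ≠ ⊤ := by
      have h7 := upper_cnt (v := v) (w := w) hR r
      have h8 := cnt_le h (r := r + R) (by positivity)
      exact (lt_of_le_of_lt h7 (ENNReal.mul_lt_top hfin.lt_top
        (h8.trans_lt ENNReal.ofReal_lt_top))).ne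
    have h7 := (ENNReal.ofReal_le_iff_le_toReal h6).1 h5
    exact h7
  · filter_upwards [eventually_ge_atTop C, eventually_gt_atTop 0] with r hr hr0
    refine div_le_div_of_nonneg_right ?_ (by positivity)
    have h3 := upper_cnt (v := v) (w := w) hR r
    have h4 := cnt_le h (r := r + R) (by positivity)
    have h5 : ∑' i, volume (tr (lat v w i) K ∩ closedBall 0 r) ≤
        ENNReal.ofReal (V * (Real.pi * (r + C) ^ 2 / |cr v w|)) := by
      refine le_trans h3 ?_
      rw [ENNReal.ofReal_mul ENNReal.toReal_nonneg, ENNReal.ofReal_toReal hfin]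
      refine mul_le_mul_right ?_ _
      have e : r + C = r + R + (‖v‖ + ‖w‖) := by rw [hC]; ring
      rw [e]
      exact h4
    refine ENNReal.toReal_le_of_le_ofReal (by positivity) h5

end Pool.H94.DL
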