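import Pool.Agent.H94.DL.Trans
import Pool.Agent.H94.DL.Lat
import Pool.Agent.H94.DL.Defs

/-!
# The double lattice packing of an inscribed parallelogram
-/

set_option autoImplicit false

namespace Pool.H94.DL

open Set MeasureTheory Filter Topology Metric

variable {K : Set ℂ} {o p q : ℂ}

/-- the isometries of the double lattice packing: translations by `2 (m p + n q)` and reflections
in the points `o + m p + n q` -/
noncomputable def fam (o p q : ℂ) : (ℤ × ℤ) × Bool → (ℂ ≃ᵢ ℂ)
  | (i, false) => IsometryEquiv.addRight (2 * (i.1 * p + i.2 * q))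
  | (i, true) => IsometryEquiv.subLeft (2 * (o + i.1 * p + i.2 * q))

theorem mem_fam_false {i : ℤ × ℤ} {S : Set ℂ} {z : ℂ} :
    z ∈ fam o p q (i, false) '' S ↔ z - 2 * (i.1 * p + i.2 * q) ∈ S := by
  constructor
  · rintro ⟨y, hy, rfl⟩
    simpa [fam] using hy
  · intro h
    exact ⟨_, h, by simp [fam]⟩

theorem mem_fam_true {i : ℤ × ℤ} {S : Set ℂ} {z : ℂ} :
    z ∈ fam o p q (i, true) '' S ↔ 2 * (o + i.1 * p + i.2 * q) - z ∈ S := by
  constructor
  · rintro ⟨y, hy, rfl⟩
    simpa [fam] using hy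
  · intro h
    exact ⟨_, h, by simp [fam]⟩

theorem interior_image (e : ℂ ≃ᵢ ℂ) (S : Set ℂ) : interior (e '' S) = e '' interior S :=
  (e.toHomeomorph.image_interior S).symm

theorem fam_mixed (hK : Convex ℝ K) (h : Ins K o p q) (i j : ℤ × ℤ) :
    Disjoint (interior (fam o p q (i, false) '' K)) (interior (fam o p q (j, true) '' K)) := by
  rw [interior_image, interior_image, Set.disjoint_left]
  intro z h1 h2
  rw [mem_fam_false] at h1
  rw [mem_fam_true] at h2
  have h3 := combo2 hK h1 (interior_subset h2) (a := 1 / 2) (b := 1 / 2) (by norm_num)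
    (by norm_num) (by norm_num)
  refine h.lattice hK (j.1 - i.1) (j.2 - i.2) ?_
  convert h3 using 1
  push_cast
  ring

theorem fam_packing (hK : Convex ℝ K) (h : Ins K o p q) (hpq : cr p q ≠ 0) (hp : ¬ NN K p)
    (hq : ¬ NN K q) : IsPacking K (fam o p q) := by
  rintro ⟨i, b⟩ ⟨j, c⟩ hij
  cases b <;> cases c
  · have hne : ¬ (i.1 - j.1 = 0 ∧ i.2 - j.2 = 0) := by
      rintro ⟨h1, h2⟩
      apply hij
      have h3 : i.1 = j.1 := by omega
      have h4 : i.2 = j.2 := by omega
      rw [Prod.ext h3 h4]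
    rw [interior_image, interior_image, Set.disjoint_left]
    intro z h1 h2
    rw [mem_fam_false] at h1 h2
    refine h.trans hK hpq hp hq hne ⟨_, h1, ?_⟩
    convert h2 using 1
    push_cast
    ring
  · exact fam_mixed hK h i j
  · exact (fam_mixed hK h j i).symm
  · have hne : ¬ (j.1 - i.1 = 0 ∧ j.2 - i.2 = 0) := by
      rintro ⟨h1, h2⟩
      apply hij
      have h3 : i.1 = j.1 := by omega
      have h4 : i.2 = j.2 := by omega
      rw [Prod.ext h3 h4]
    rw [interior_image, interior_image, Set.disjoint_left]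
    intro z h1 h2
    rw [mem_fam_true] at h1 h2
    refine h.trans hK hpq hp hq hne ⟨_, h1, ?_⟩
    convert h2 using 1
    push_cast
    ring

/-- point reflection of `K` -/
def rfl' (c : ℂ) (K : Set ℂ) : Set ℂ := (fun z => 2 * c - z) '' K

theorem volume_rfl' (c : ℂ) (K : Set ℂ) : volume (rfl' c K) = volume K := by
  have h1 : rfl' c K = (fun z => 2 * c - z) ⁻¹' K := by
    ext z
    constructor
    · rintro ⟨y, hy, rfl⟩
      simpa using hy
    · intro hz
      exact ⟨2 * c - z, hz, by simp⟩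
  rw [h1]
  exact (Measure.measurePreserving_sub_left volume (2 * c)).measure_preimage_equiv
    (f := MeasurableEquiv.subLeft (2 * c)) K

theorem fam_density {R : ℝ} (hR : ∀ z ∈ K, ‖z‖ ≤ R) (hR0 : 0 ≤ R) (hpq : cr p q ≠ 0) :
    HasDensity K (fam o p q) ((volume K).toReal / (2 * |cr p q|)) := by
  have hcr : cr (2 * p) (2 * q) = 4 * cr p q := by
    unfold cr
    simp
    ring
  have hne : cr (2 * p) (2 * q) ≠ 0 := by rw [hcr]; exact mul_ne_zero (by norm_num) hpq
  have hR1 : ∀ z ∈ rfl' o K, ‖z‖ ≤ 2 * ‖o‖ + R := by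
    rintro _ ⟨y, hy, rfl⟩
    calc ‖2 * o - y‖ ≤ ‖2 * o‖ + ‖y‖ := norm_sub_le _ _
      _ ≤ 2 * ‖o‖ + R := by
        rw [norm_mul, Complex.norm_ofNat]
        linarith [hR y hy]
  have t1 := tendsto_lat hne hR hR0
  have t2 := tendsto_lat hne hR1 (by positivity)
  rw [volume_rfl'] at t2
  have t3 := t1.add t2
  unfold HasDensity
  have e1 : (volume K).toReal / |cr (2 * p) (2 * q)| + (volume K).toReal / |cr (2 * p) (2 * q)| =
      (volume K).toReal / (2 * |cr p q|) := by
    rw [hcr, abs_mul, abs_of_pos (by norm_num : (0 : ℝ) < 4)]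
    have : |cr p q| ≠ 0 := abs_ne_zero.2 hpq
    field_simp
    ring
  rw [e1] at t3
  refine t3.congr fun r => ?_
  rw [← add_div]
  congr 1
  have f1 : ∀ S : Set ℂ, ∀ R : ℝ, (∀ z ∈ S, ‖z‖ ≤ R) → 0 ≤ R →
      ∑' i, volume (tr (lat (2 * p) (2 * q) i) S ∩ closedBall 0 r) ≠ ⊤ := by
    intro S R hS hR0
    have hfin : volume S ≠ ⊤ := by
      have : S ⊆ closedBall 0 R := fun z hz => mem_closedBall_zero_iff.2 (hS z hz)
      exact ((measure_mono this).trans_lt measure_closedBall_lt_top).ne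
    have h7 := upper_cnt (v := 2 * p) (w := 2 * q) hS |r|
    have h8 := cnt_le hne (r := |r| + R) (by positivity)
    have h9 : ∑' i, volume (tr (lat (2 * p) (2 * q) i) S ∩ closedBall 0 r) ≤
        ∑' i, volume (tr (lat (2 * p) (2 * q) i) S ∩ closedBall 0 |r|) :=
      ENNReal.tsum_le_tsum fun i => measure_mono
        (inter_subset_inter_right _ (closedBall_subset_closedBall (le_abs_self r)))
    exact (lt_of_le_of_lt (h9.trans h7) (ENNReal.mul_lt_top hfin.lt_top
      (h8.trans_lt ENNReal.ofReal_lt_top))).ne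
  rw [← ENNReal.toReal_add (f1 _ _ hR hR0) (f1 _ _ hR1 (by positivity))]
  congr 1
  have g1 : ∀ i : ℤ × ℤ, fam o p q (i, false) '' K = tr (lat (2 * p) (2 * q) i) K := by
    intro i
    ext z
    rw [mem_fam_false, mem_tr, lat]
    have : z - 2 * (i.1 * p + i.2 * q) = z - (i.1 * (2 * p) + i.2 * (2 * q)) := by ring
    rw [this]
  have g2 : ∀ i : ℤ × ℤ, fam o p q (i, true) '' K = tr (lat (2 * p) (2 * q) i) (rfl' o K) := by
    intro i
    ext z
    rw [mem_fam_true, mem_tr, lat, rfl']
    constructor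
    · intro hz
      exact ⟨_, hz, by ring⟩
    · rintro ⟨y, hy, hyz⟩
      have : 2 * (o + i.1 * p + i.2 * q) - z = y := by linear_combination hyz
      rw [this]
      exact hy
  rw [← ENNReal.tsum_add]
  conv_rhs => rw [ENNReal.tsum_prod']
  refine tsum_congr fun i => ?_
  rw [tsum_bool, g1, g2]

end Pool.H94.DL
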