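import Mathlib

/-!
# Double lattice packings of planar convex bodies: the packing property

`K` is a convex set of the plane `ℂ`, and `o, o + p, o + q, o + p + q` are the vertices of a
parallelogram in `K` that do not lie in the interior of `K`.
-/

set_option autoImplicit false

namespace Pool.H94.DL

open Set

/-- cross product -/
def cr (z w : ℂ) : ℝ := z.re * w.im - z.im * w.re

/-- The parallelogram with vertex `o` and sides `p, q` is inscribed in `K`. -/
structure Ins (K : Set ℂ) (o p q : ℂ) : Prop where
  m00 : o ∈ K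
  m10 : o + p ∈ K
  m01 : o + q ∈ K
  m11 : o + p + q ∈ K
  i00 : o ∉ interior K
  i10 : o + p ∉ interior K
  i01 : o + q ∉ interior K
  i11 : o + p + q ∉ interior K

variable {K : Set ℂ} {o p q : ℂ}

theorem Ins.swap (h : Ins K o p q) : Ins K o q p where
  m00 := h.m00
  m10 := h.m01
  m01 := h.m10
  m11 := by rw [add_right_comm]; exact h.m11
  i00 := h.i00
  i10 := h.i01
  i01 := h.i10
  i11 := by rw [add_right_comm]; exact h.i11

theorem Ins.flip (h : Ins K o p q) : Ins K (o + q) p (-q) where
  m00 := h.m01
  m10 := by rw [add_right_comm]; exact h.m11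
  m01 := by rw [add_neg_cancel_right]; exact h.m00
  m11 := by rw [add_right_comm, add_neg_cancel_right]; exact h.m10
  i00 := h.i01
  i10 := by rw [add_right_comm]; exact h.i11
  i01 := by rw [add_neg_cancel_right]; exact h.i00
  i11 := by rw [add_right_comm, add_neg_cancel_right]; exact h.i10

theorem combo2 (hK : Convex ℝ K) {x y : ℂ} (hx : x ∈ interior K) (hy : y ∈ K) {a b : ℝ}
    (ha : 0 < a) (hb : 0 ≤ b) (hab : a + b = 1) : (a : ℂ) * x + b * y ∈ interior K := by
  have := hK.combo_interior_self_mem_interior hx hy ha hb hab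
  simpa using this

theorem combo3 (hK : Convex ℝ K) {x y z : ℂ} (hx : x ∈ interior K) (hy : y ∈ K) (hz : z ∈ K)
    {a b c : ℝ} (ha : 0 < a) (hb : 0 ≤ b) (hc : 0 ≤ c) (habc : a + b + c = 1) :
    (a : ℂ) * x + b * y + c * z ∈ interior K := by
  rcases eq_or_lt_of_le (add_nonneg hb hc) with h0 | h0
  · have hb0 : b = 0 := by linarith
    have hc0 : c = 0 := by linarith
    have ha1 : a = 1 := by linarith
    subst hb0 hc0 ha1
    simpa using hx
  · have hw : ((b / (b + c) : ℝ) : ℂ) * y + ((c / (b + c) : ℝ) : ℂ) * z ∈ K := by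
      have := hK hy hz (div_nonneg hb h0.le) (div_nonneg hc h0.le)
        (by rw [← add_div, div_self h0.ne'])
      simpa using this
    have h1 := combo2 hK hx hw ha h0.le (by linarith)
    have h2 : ((b + c : ℝ) : ℂ) ≠ 0 := by exact_mod_cast h0.ne'
    convert h1 using 1
    push_cast at h2 ⊢
    field_simp
    ring

theorem combo4 (hK : Convex ℝ K) {x y z w : ℂ} (hx : x ∈ interior K) (hy : y ∈ K) (hz : z ∈ K)
    (hw : w ∈ K) {a b c d : ℝ} (ha : 0 < a) (hb : 0 ≤ b) (hc : 0 ≤ c) (hd : 0 ≤ d)
    (habc : a + b + c + d = 1) :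
    (a : ℂ) * x + b * y + c * z + d * w ∈ interior K := by
  rcases eq_or_lt_of_le (add_nonneg hc hd) with h0 | h0
  · have hc0 : c = 0 := by linarith
    have hd0 : d = 0 := by linarith
    subst hc0 hd0
    have := combo2 hK hx hy ha hb (by linarith)
    simpa using this
  · have hv : ((c / (c + d) : ℝ) : ℂ) * z + ((d / (c + d) : ℝ) : ℂ) * w ∈ K := by
      have := hK hz hw (div_nonneg hc h0.le) (div_nonneg hd h0.le)
        (by rw [← add_div, div_self h0.ne'])
      simpa using this
    have h1 := combo3 hK hx hy hv ha hb h0.le (by linarith)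
    have h2 : ((c + d : ℝ) : ℂ) ≠ 0 := by exact_mod_cast h0.ne'
    convert h1 using 1
    push_cast at h2 ⊢
    field_simp
    ring

/-- No point of the lattice generated by an inscribed parallelogram lies in the interior. -/
theorem Ins.lattice (hK : Convex ℝ K) (h : Ins K o p q) (m n : ℤ) :
    o + m * p + n * q ∉ interior K := by
  intro hx
  rcases le_or_gt m 0 with hm | hm <;> rcases le_or_gt n 0 with hn | hn
  · have hm' : (m : ℝ) ≤ 0 := by exact_mod_cast hm
    have hn' : (n : ℝ) ≤ 0 := by exact_mod_cast hn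
    have hpos : (0 : ℝ) < 1 - m - n := by linarith
    have hc : ((1 - m - n : ℝ) : ℂ) ≠ 0 := by exact_mod_cast hpos.ne'
    have := combo3 hK hx h.m10 h.m01 (a := 1 / (1 - m - n)) (b := -m / (1 - m - n))
      (c := -n / (1 - m - n)) (by positivity) (div_nonneg (by linarith) hpos.le)
      (div_nonneg (by linarith) hpos.le) (by field_simp; ring)
    refine h.i00 ?_
    convert this using 1
    push_cast at hc ⊢
    field_simp
    ring
  · have hm' : (m : ℝ) ≤ 0 := by exact_mod_cast hm
    have hn' : (1 : ℝ) ≤ n := by exact_mod_cast hn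
    have hpos : (0 : ℝ) < n - m := by linarith
    have hc : ((n - m : ℝ) : ℂ) ≠ 0 := by exact_mod_cast hpos.ne'
    have := combo3 hK hx h.m00 h.m11 (a := 1 / (n - m)) (b := (n - 1) / (n - m))
      (c := -m / (n - m)) (by positivity) (div_nonneg (by linarith) hpos.le)
      (div_nonneg (by linarith) hpos.le) (by field_simp; ring)
    refine h.i01 ?_
    convert this using 1
    push_cast at hc ⊢
    field_simp
    ring
  · have hm' : (1 : ℝ) ≤ m := by exact_mod_cast hm
    have hn' : (n : ℝ) ≤ 0 := by exact_mod_cast hn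
    have hpos : (0 : ℝ) < m - n := by linarith
    have hc : ((m - n : ℝ) : ℂ) ≠ 0 := by exact_mod_cast hpos.ne'
    have := combo3 hK hx h.m00 h.m11 (a := 1 / (m - n)) (b := (m - 1) / (m - n))
      (c := -n / (m - n)) (by positivity) (div_nonneg (by linarith) hpos.le)
      (div_nonneg (by linarith) hpos.le) (by field_simp; ring)
    refine h.i10 ?_
    convert this using 1
    push_cast at hc ⊢
    field_simp
    ring
  · have hm' : (1 : ℝ) ≤ m := by exact_mod_cast hm
    have hn' : (1 : ℝ) ≤ n := by exact_mod_cast hn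
    have hpos : (0 : ℝ) < m + n - 1 := by linarith
    have hc : ((m + n - 1 : ℝ) : ℂ) ≠ 0 := by exact_mod_cast hpos.ne'
    have := combo3 hK hx h.m01 h.m10 (a := 1 / (m + n - 1)) (b := (m - 1) / (m + n - 1))
      (c := (n - 1) / (m + n - 1)) (by positivity) (div_nonneg (by linarith) hpos.le)
      (div_nonneg (by linarith) hpos.le) (by field_simp; ring)
    refine h.i11 ?_
    convert this using 1
    push_cast at hc ⊢
    field_simp
    ring

/-- Coordinates with respect to `p, q`. -/
theorem exists_coord (hpq : cr p q ≠ 0) (x : ℂ) : ∃ s t : ℝ, x = s * p + t * q := by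
  refine ⟨cr x q / cr p q, cr p x / cr p q, ?_⟩
  have h1 : cr p q ≠ 0 := hpq
  unfold cr at h1 ⊢
  apply Complex.ext
  · simp only [Complex.add_re, Complex.mul_re, Complex.ofReal_re, Complex.ofReal_im, zero_mul,
      sub_zero]
    rw [div_mul_eq_mul_div, div_mul_eq_mul_div, ← add_div, eq_div_iff h1]
    ring
  · simp only [Complex.add_im, Complex.mul_im, Complex.ofReal_re, Complex.ofReal_im, zero_mul,
      add_zero]
    rw [div_mul_eq_mul_div, div_mul_eq_mul_div, ← add_div, eq_div_iff h1]
    ring

theorem Ins.diag_aux (hK : Convex ℝ K) (h : Ins K o p q) {s t : ℝ}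
    (hx : o + s * p + t * q ∈ interior K)
    (hy : o + (s + 2 : ℝ) * p + (t + 2 : ℝ) * q ∈ interior K) (hs : 0 < s) (ht : t < -1) :
    False := by
  have hpos : 0 < s - t := by linarith
  have hc : ((s - t : ℝ) : ℂ) ≠ 0 := by exact_mod_cast hpos.ne'
  rcases le_or_gt 1 s with h1 | h1
  · have := combo3 hK hx h.m11 h.m00 (a := 1 / (s - t)) (b := -t / (s - t))
      (c := (s - 1) / (s - t)) (by positivity) (div_nonneg (by linarith) hpos.le)
      (div_nonneg (by linarith) hpos.le) (by field_simp; ring)
    refine h.i10 ?_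
    convert this using 1
    push_cast at hc ⊢
    field_simp
    ring
  · have := combo3 hK hx (interior_subset hy) h.m11 (a := (1 - (1 - s) / 2) / (s - t))
      (b := ((1 - s) / 2) / (s - t)) (c := (s - t - 1) / (s - t))
      (div_pos (by linarith) hpos) (div_nonneg (by linarith) hpos.le)
      (div_nonneg (by linarith) hpos.le) (by field_simp; ring)
    refine h.i10 ?_
    convert this using 1
    push_cast at hc ⊢
    field_simp
    ring

/-- The difference of two interior points is not twice a diagonal of an inscribed parallelogram. -/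
theorem Ins.diag (hK : Convex ℝ K) (h : Ins K o p q) (hpq : cr p q ≠ 0) {x : ℂ}
    (hx : x ∈ interior K) (hy : x + 2 * (p + q) ∈ interior K) : False := by
  obtain ⟨s, t, hst⟩ := exists_coord hpq (x - o)
  have ex : x = o + s * p + t * q := by rw [add_assoc, ← hst]; ring
  have ey : x + 2 * (p + q) = o + (s + 2 : ℝ) * p + (t + 2 : ℝ) * q := by
    rw [ex]; push_cast; ring
  rw [ey] at hy
  rw [ex] at hx
  have h1 : ¬ (s ≤ 0 ∧ t ≤ 0) := by
    rintro ⟨hs, ht⟩
    have hpos : (0 : ℝ) < 1 - s - t := by linarith
    have hc : ((1 - s - t : ℝ) : ℂ) ≠ 0 := by exact_mod_cast hpos.ne'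
    have := combo3 hK hx h.m10 h.m01 (a := 1 / (1 - s - t)) (b := -s / (1 - s - t))
      (c := -t / (1 - s - t)) (by positivity) (div_nonneg (by linarith) hpos.le)
      (div_nonneg (by linarith) hpos.le) (by field_simp; ring)
    refine h.i00 ?_
    convert this using 1
    push_cast at hc ⊢
    field_simp
    ring
  have h2 : ¬ (-1 ≤ s ∧ -1 ≤ t) := by
    rintro ⟨hs, ht⟩
    have hpos : (0 : ℝ) < s + t + 3 := by linarith
    have hc : ((s + t + 3 : ℝ) : ℂ) ≠ 0 := by exact_mod_cast hpos.ne'
    have := combo3 hK hy h.m01 h.m10 (a := 1 / (s + t + 3)) (b := (s + 1) / (s + t + 3))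
      (c := (t + 1) / (s + t + 3)) (by positivity) (div_nonneg (by linarith) hpos.le)
      (div_nonneg (by linarith) hpos.le) (by field_simp; ring)
    refine h.i11 ?_
    convert this using 1
    push_cast at hc ⊢
    field_simp
    ring
  rcases lt_or_ge 0 s with hs | hs
  · have ht : t < -1 := by
      by_contra hcon
      push Not at hcon
      exact h2 ⟨by linarith, hcon⟩
    exact h.diag_aux hK hx hy hs ht
  · have ht : 0 < t := by
      by_contra hcon
      push Not at hcon
      exact h1 ⟨hs, hcon⟩
    have hs' : s < -1 := by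
      by_contra hcon
      push Not at hcon
      exact h2 ⟨hcon, by linarith⟩
    refine h.swap.diag_aux hK (s := t) (t := s) ?_ ?_ ht hs'
    · rw [add_right_comm]; exact hx
    · rw [add_right_comm]; exact hy

end Pool.H94.DL
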