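import Pool.Agent.H94.DL.Transfer
import Pool.Agent.H61.Rh.H2

/-!
# Lattice packings of a body and of its difference body
-/

set_option autoImplicit false

namespace Pool.H94.DL

open Set MeasureTheory Filter Topology Metric Pointwise

/-- the translations by the vectors of the lattice generated by `v, w` -/
noncomputable def ltr (v w : ℂ) (i : ℤ × ℤ) : ℂ ≃ᵢ ℂ := IsometryEquiv.addRight (lat v w i)

theorem ltr_image (v w : ℂ) (i : ℤ × ℤ) (K : Set ℂ) : ltr v w i '' K = tr (lat v w i) K := by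
  rfl

theorem ltr_packing {v w : ℂ} {K : Set ℂ} (h : ∀ m n : ℤ, ¬ (m = 0 ∧ n = 0) →
    ∀ x ∈ interior K, x + (m * v + n * w) ∉ interior K) : IsPacking K (ltr v w) := by
  intro i j hij
  have hne : ¬ (i.1 - j.1 = 0 ∧ i.2 - j.2 = 0) := by
    rintro ⟨h1, h2⟩
    exact hij (Prod.ext (by omega) (by omega))
  rw [interior_image, interior_image, ltr_image, ltr_image, Set.disjoint_left]
  intro z h1 h2
  rw [mem_tr] at h1 h2
  refine h _ _ hne _ h1 ?_
  convert h2 using 1
  unfold lat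
  push_cast
  ring

theorem ltr_density {v w : ℂ} (h : cr v w ≠ 0) {K : Set ℂ} {R : ℝ} (hR : ∀ z ∈ K, ‖z‖ ≤ R)
    (hR0 : 0 ≤ R) : HasDensity K (ltr v w) ((volume K).toReal / |cr v w|) := by
  unfold HasDensity
  simp only [ltr_image]
  exact tendsto_lat h hR hR0

/-- half of the difference body -/
def hd {E : Type} [AddCommGroup E] [Module ℝ E] (K : Set E) : Set E := (1 / 2 : ℝ) • (K - K)

theorem mem_hd {E : Type} [AddCommGroup E] [Module ℝ E] {K : Set E} {z : E} :
    z ∈ hd K ↔ ∃ x ∈ K, ∃ y ∈ K, z = (1 / 2 : ℝ) • (x - y) := by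
  unfold hd
  constructor
  · rintro ⟨_, ⟨x, hx, y, hy, rfl⟩, rfl⟩
    exact ⟨x, hx, y, hy, rfl⟩
  · rintro ⟨x, hx, y, hy, rfl⟩
    exact ⟨x - y, ⟨x, hx, y, hy, rfl⟩, rfl⟩

theorem convex_hd {K : Set ℂ} (hK : Convex ℝ K) : Convex ℝ (hd K) := (hK.sub hK).smul _

theorem compact_hd {K : Set ℂ} (hK : IsCompact K) : IsCompact (hd K) := by
  rw [hd, sub_eq_add_neg]
  exact (hK.add hK.neg).smul _

/-- The half difference of two interior points of `K` is an interior point of `hd K`. -/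
theorem interior_hd {K : Set ℂ} {x y : ℂ} (hx : x ∈ interior K) (hy : y ∈ interior K) :
    (1 / 2 : ℝ) • (x - y) ∈ interior (hd K) := by
  rw [mem_interior]
  refine ⟨(fun z : ℂ => (1 / 2 : ℝ) • (z - y)) '' interior K, ?_, ?_, ⟨x, hx, rfl⟩⟩
  · rintro _ ⟨z, hz, rfl⟩
    exact mem_hd.2 ⟨z, interior_subset hz, y, interior_subset hy, rfl⟩
  · have h1 : (fun z : ℂ => (1 / 2 : ℝ) • (z - y)) =
        (Homeomorph.smulOfNeZero (1 / 2 : ℝ) (by norm_num)) ∘ (Homeomorph.subRight y) := by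
      ext z; rfl
    rw [h1, image_comp]
    exact (Homeomorph.isOpenMap _) _ ((Homeomorph.isOpenMap _) _ isOpen_interior)

/-- A lattice packing of the half difference body is a lattice packing of `K`. -/
theorem packing_hd {v w : ℂ} {K : Set ℂ} (h : ∀ m n : ℤ, ¬ (m = 0 ∧ n = 0) →
    ∀ x ∈ interior (hd K), x + (m * v + n * w) ∉ interior (hd K)) : ∀ m n : ℤ,
    ¬ (m = 0 ∧ n = 0) → ∀ x ∈ interior K, x + (m * v + n * w) ∉ interior K := by
  intro m n hmn x hx hy
  refine h m n hmn _ (interior_hd hx hy) ?_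
  have := interior_hd hy hx
  convert this using 1
  simp
  ring

theorem cr_eq (v w : ℂ) : Pool.H61.Rh.cr v w = cr v w := rfl

theorem exists_lattice {K : Set ℂ} (hc : Convex ℝ K) (hk : IsCompact K)
    (hi : (interior K).Nonempty) : ∃ v w : ℂ, cr v w ≠ 0 ∧ IsPacking K (ltr v w) ∧
      HasDensity K (ltr v w) ((volume K).toReal / |cr v w|) ∧
      901 / 1000 * ((volume K).toReal / (volume (hd K)).toReal) ≤
        (volume K).toReal / |cr v w| := by
  obtain ⟨c, hc0⟩ := hi
  have hni : (interior (hd K)).Nonempty := ⟨_, interior_hd hc0 hc0⟩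
  obtain ⟨v, w, h1, h2, h3⟩ := Pool.H61.Rh.packing_C (hd K) (convex_hd hc) (compact_hd hk) hni
    (by
      intro x hx
      obtain ⟨a, ha, b, hb, rfl⟩ := mem_hd.1 hx
      exact mem_hd.2 ⟨b, hb, a, ha, by rw [← smul_neg, neg_sub]⟩)
  rw [cr_eq] at h1 h3
  obtain ⟨R, hR⟩ := hk.isBounded.subset_closedBall 0
  have hR' : ∀ z ∈ K, ‖z‖ ≤ max R 0 := fun z hz =>
    (mem_closedBall_zero_iff.1 (hR hz)).trans (le_max_left _ _)
  refine ⟨v, w, h1, ltr_packing (packing_hd h2), ltr_density h1 hR' (le_max_right _ _), ?_⟩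
  have hV : 0 < (volume (hd K)).toReal := by
    refine ENNReal.toReal_pos ?_ (compact_hd hk).measure_lt_top.ne
    exact ((isOpen_interior.measure_pos volume hni).trans_le (measure_mono interior_subset)).ne'
  have hcr : 0 < |cr v w| := abs_pos.2 h1
  rw [le_div_iff₀ hcr] at h3
  rw [le_div_iff₀ hcr, ← mul_div_assoc, div_mul_eq_mul_div, div_le_iff₀ hV]
  have hK0 : 0 ≤ (volume K).toReal := ENNReal.toReal_nonneg
  nlinarith

theorem hd_LL (K : Set E2) : hd (LL ⁻¹' K) = LL ⁻¹' hd K := by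
  ext z
  constructor
  · intro h
    obtain ⟨x, hx, y, hy, rfl⟩ := mem_hd.1 h
    exact mem_hd.2 ⟨LL x, hx, LL y, hy, by rw [map_smul, map_sub]⟩
  · intro h
    obtain ⟨x, hx, y, hy, he⟩ := mem_hd.1 (show LL z ∈ hd K from h)
    refine mem_hd.2 ⟨LL.symm x, ?_, LL.symm y, ?_, ?_⟩
    · show LL (LL.symm x) ∈ K
      rw [LL.apply_symm_apply]; exact hx
    · show LL (LL.symm y) ∈ K
      rw [LL.apply_symm_apply]; exact hy
    · apply LL.injective
      rw [he, map_smul, map_sub, LL.apply_symm_apply, LL.apply_symm_apply]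

/-- The main theorem in the Euclidean plane. -/
theorem exists_lattice3 {K : Set E2} (hc : Convex ℝ K) (hk : IsCompact K)
    (hi : (interior K).Nonempty) : ∃ (e : ℤ × ℤ → E2 ≃ᵢ E2) (d : ℝ),
      (∀ i, ∃ t, ∀ z, e i z = z + t) ∧ IsPacking K e ∧
      HasDensity K e d ∧ 901 / 1000 * ((volume K).toReal / (volume (hd K)).toReal) ≤ d := by
  obtain ⟨v, w, h1, h2, h3, h4⟩ := exists_lattice (convex_pre hc) (compact_pre hk)
    (interior_pre hi)
  refine ⟨fun i => cj (ltr v w i), _, ?_, cj_packing h2, cj_density h3, ?_⟩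
  · intro i
    refine ⟨LL (lat v w i), fun z => ?_⟩
    show LL (LL.symm z + lat v w i) = z + LL (lat v w i)
    rw [map_add, LL.apply_symm_apply]
  · rw [hd_LL, volume_LL_preimage, volume_LL_preimage] at h4
    rw [volume_LL_preimage]
    exact h4

theorem volume_hd_sym {K : Set E2} (hc : Convex ℝ K) (hk : IsCompact K)
    (hi : (interior K).Nonempty) {c : E2} (hs : ∀ z ∈ K, c + c - z ∈ K) :
    (volume K).toReal / (volume (hd K)).toReal = 1 := by
  have h1 : hd K = (fun z => z + c) ⁻¹' K := by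
    ext z
    constructor
    · intro hz
      obtain ⟨x, hx, y, hy, rfl⟩ := mem_hd.1 hz
      have h2 := hc hx (hs y hy) (a := 1 / 2) (b := 1 / 2) (by norm_num) (by norm_num)
        (by norm_num)
      show (1 / 2 : ℝ) • (x - y) + c ∈ K
      convert h2 using 1
      module
    · intro hz
      refine mem_hd.2 ⟨z + c, hz, _, hs _ hz, ?_⟩
      module
  have h2 : volume (hd K) = volume K := by
    rw [h1]
    exact measure_preimage_add_right volume c K
  rw [h2]
  refine div_self (ENNReal.toReal_pos ?_ hk.measure_lt_top.ne).ne'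
  exact ((isOpen_interior.measure_pos volume hi).trans_le (measure_mono interior_subset)).ne'

end Pool.H94.DL
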