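import Pool.Agent.H94.DL.Sym
import Pool.Agent.H61.Rh.Gen

/-!
# Lattice packings of the half difference body, general constant
-/

set_option autoImplicit false

namespace Pool.H94.DL

open Set MeasureTheory Metric
open scoped Pointwise

theorem exists_lattice_gen {c c' : ℝ} (h9 : c ≤ 9025 / 10000) (H : Pool.H61.Rh.RSBound c)
    (h0 : 0 ≤ c') (hcc : c' < c) {K : Set ℂ} (hc : Convex ℝ K) (hk : IsCompact K)
    (hi : (interior K).Nonempty) : ∃ v w : ℂ, cr v w ≠ 0 ∧ IsPacking K (ltr v w) ∧
      HasDensity K (ltr v w) ((volume K).toReal / |cr v w|) ∧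
      c' * ((volume K).toReal / (volume (hd K)).toReal) ≤
        (volume K).toReal / |cr v w| := by
  obtain ⟨p, hp⟩ := hi
  have hni : (interior (hd K)).Nonempty := ⟨_, interior_hd hp hp⟩
  obtain ⟨v, w, h1, h2, h3⟩ := Pool.H61.Rh.packing_C_gen h9 H h0 hcc (hd K) (convex_hd hc)
    (compact_hd hk) hni
    (by
      intro x hx
      obtain ⟨a, ha, b, hb, rfl⟩ := mem_hd.1 hx
      exact mem_hd.2 ⟨b, hb, a, ha, by rw [← smul_neg, neg_sub]⟩)
  rw [cr_eq] at h1 h3
  obtain ⟨R, hR⟩ := hk.isBounded.subset_closedBall 0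
  have hR' : ∀ z ∈ K, ‖z‖ ≤ max R 0 := fun z hz =>
    (mem_closedBall_zero_iff.1 (hR hz)).trans (le_max_left _ _)
  refine ⟨v, w, h1, ltr_packing (packing_hd h2), ltr_density h1 hR' (le_max_right _ _), ?_⟩
  have hV : 0 < (volume (hd K)).toReal := by
    refine ENNReal.toReal_pos ?_ (compact_hd hk).measure_lt_top.ne
    exact ((isOpen_interior.measure_pos volume hni).trans_le (measure_mono interior_subset)).ne'
  have hcr : 0 < |cr v w| := abs_pos.2 h1
  rw [le_div_iff₀ hcr] at h3
  rw [le_div_iff₀ hcr, ← mul_div_assoc, div_mul_eq_mul_div, div_le_iff₀ hV]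
  have hK0 : 0 ≤ (volume K).toReal := ENNReal.toReal_nonneg
  nlinarith

/-- Packings by translates in the Euclidean plane. -/
theorem exists_lattice3_gen {c c' : ℝ} (h9 : c ≤ 9025 / 10000) (H : Pool.H61.Rh.RSBound c)
    (h0 : 0 ≤ c') (hcc : c' < c) {K : Set E2} (hc : Convex ℝ K) (hk : IsCompact K)
    (hi : (interior K).Nonempty) : ∃ (e : ℤ × ℤ → E2 ≃ᵢ E2) (d : ℝ),
      (∀ i, ∃ t, ∀ z, e i z = z + t) ∧ IsPacking K e ∧
      HasDensity K e d ∧ c' * ((volume K).toReal / (volume (hd K)).toReal) ≤ d := by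
  obtain ⟨v, w, h1, h2, h3, h4⟩ := exists_lattice_gen h9 H h0 hcc (convex_pre hc)
    (compact_pre hk) (interior_pre hi)
  refine ⟨fun i => cj (ltr v w i), _, ?_, cj_packing h2, cj_density h3, ?_⟩
  · intro i
    refine ⟨LL (lat v w i), fun z => ?_⟩
    show LL (LL.symm z + lat v w i) = z + LL (lat v w i)
    rw [map_add, LL.apply_symm_apply]
  · rw [hd_LL, volume_LL_preimage, volume_LL_preimage] at h4
    rw [volume_LL_preimage]
    exact h4

/-- The packing density in terms of the half difference body. -/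
theorem le_density_gen {c : ℝ} (h9 : c ≤ 9025 / 10000) (hpos : 0 < c)
    (H : Pool.H61.Rh.RSBound c) {K : Set E2} (hc : Convex ℝ K) (hk : IsCompact K)
    (hi : (interior K).Nonempty) :
    c * ((volume K).toReal / (volume (hd K)).toReal) ≤ packingDensity K := by
  set x := (volume K).toReal / (volume (hd K)).toReal with hx
  have hx0 : 0 ≤ x := div_nonneg ENNReal.toReal_nonneg ENNReal.toReal_nonneg
  have key : ∀ c', 0 ≤ c' → c' < c → c' * x ≤ packingDensity K := by
    intro c' a1 a2
    obtain ⟨e, d, b1, b2, b3, b4⟩ := exists_lattice3_gen h9 H a1 a2 hc hk hi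
    exact b4.trans (le_packingDensity hc b2 b3)
  by_contra hcon
  have hlt := not_le.1 hcon
  rcases eq_or_lt_of_le hx0 with hx1 | hx1
  · have := key 0 le_rfl hpos
    rw [← hx1] at hlt this
    simp at hlt this
    exact absurd this (not_le.2 hlt)
  · have h1 : packingDensity K / x < c := by rwa [div_lt_iff₀ hx1]
    have h2 : max 0 (packingDensity K / x) < c := max_lt hpos h1
    have h3 := key ((max 0 (packingDensity K / x) + c) / 2)
      (by have := le_max_left 0 (packingDensity K / x); linarith) (by linarith)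
    rw [← le_div_iff₀ hx1] at h3
    have h4 := le_max_right 0 (packingDensity K / x)
    linarith

end Pool.H94.DL
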