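import Pool.Agent.H94.DL.Pack

/-!
# Double lattice packings: translations
-/

set_option autoImplicit false

namespace Pool.H94.DL

open Set

variable {K : Set ℂ} {o p q : ℂ}

/-- `2 z` is a difference of two interior points of `K`. -/
def NN (K : Set ℂ) (z : ℂ) : Prop := ∃ x ∈ interior K, x + 2 * z ∈ interior K

theorem NN.neg {z : ℂ} (h : NN K z) : NN K (-z) := by
  obtain ⟨x, h1, h2⟩ := h
  exact ⟨x + 2 * z, h2, by rw [mul_neg, add_neg_cancel_right]; exact h1⟩

theorem NN.combo (hK : Convex ℝ K) {z z₀ x₀ : ℂ} (h : NN K z) (h0 : x₀ ∈ K)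
    (h1 : x₀ + 2 * z₀ ∈ K) {a b : ℝ} (ha : 0 < a) (hb : 0 ≤ b) (hab : a + b = 1) :
    NN K (a * z + b * z₀) := by
  obtain ⟨x, h2, h3⟩ := h
  refine ⟨a * x + b * x₀, combo2 hK h2 h0 ha hb hab, ?_⟩
  have := combo2 hK h3 h1 ha hb hab
  convert this using 1
  ring

theorem NN.scale (hK : Convex ℝ K) {z : ℂ} {k : ℝ} (hk : 1 ≤ k) (h : NN K (k * z)) : NN K z := by
  have hk0 : (0 : ℝ) < k := by linarith
  have hkc : (k : ℂ) ≠ 0 := by exact_mod_cast hk0.ne'
  obtain ⟨x, h2, h3⟩ := h
  have := NN.combo hK (z₀ := 0) (x₀ := x) ⟨x, h2, h3⟩ (interior_subset h2)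
    (by simpa using interior_subset h2) (a := 1 / k) (b := 1 - 1 / k) (by positivity)
    (by rw [sub_nonneg, div_le_one hk0]; exact hk) (by ring)
  convert this using 1
  push_cast
  field_simp
  ring

theorem Ins.side0 (hK : Convex ℝ K) (h : Ins K o p q) {t : ℝ} (h0 : 0 ≤ t) (h1 : t ≤ 1) :
    o + t * q ∈ K := by
  have := hK h.m00 h.m01 (sub_nonneg.2 h1) h0 (by ring)
  convert this using 1
  simp
  ring

theorem Ins.side1 (hK : Convex ℝ K) (h : Ins K o p q) {t : ℝ} (h0 : 0 ≤ t) (h1 : t ≤ 1) :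
    o + p + t * q ∈ K := by
  have := hK h.m10 h.m11 (sub_nonneg.2 h1) h0 (by ring)
  convert this using 1
  simp
  ring

theorem Ins.trans_aux (hK : Convex ℝ K) (h : Ins K o p q) (hp : ¬ NN K p) {m n : ℤ}
    (hm : 0 < m) (h1 : -m < n) (h2 : n < m) : ¬ NN K (m * p + n * q) := by
  intro hN
  apply hp
  rcases eq_or_lt_of_le (show (1 : ℤ) ≤ m from hm) with h3 | h3
  · subst h3
    have : n = 0 := by omega
    subst this
    simpa using hN
  · have hm2 : (2 : ℝ) ≤ m := by exact_mod_cast h3
    have hn1 : -(m : ℝ) + 1 ≤ n := by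
      have : -m + 1 ≤ n := by omega
      exact_mod_cast this
    have hn2 : (n : ℝ) ≤ m - 1 := by
      have : n ≤ m - 1 := by omega
      exact_mod_cast this
    have hpos : (0 : ℝ) < m - 1 := by linarith
    have hpos2 : (0 : ℝ) < 2 * m - 1 := by linarith
    have e1 : (0 : ℝ) ≤ (1 + n / (m - 1)) / 2 := by
      have : -1 ≤ (n : ℝ) / (m - 1) := by rw [le_div_iff₀ hpos]; linarith
      linarith
    have e2 : (1 + n / (m - 1)) / 2 ≤ (1 : ℝ) := by
      have : (n : ℝ) / (m - 1) ≤ 1 := by rw [div_le_iff₀ hpos]; linarith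
      linarith
    have e3 : (0 : ℝ) ≤ (1 - n / (m - 1)) / 2 := by linarith
    have e4 : (1 - n / (m - 1)) / 2 ≤ (1 : ℝ) := by linarith
    have hc1 : ((m - 1 : ℝ) : ℂ) ≠ 0 := by exact_mod_cast hpos.ne'
    have hc2 : ((2 * m - 1 : ℝ) : ℂ) ≠ 0 := by exact_mod_cast hpos2.ne'
    have := NN.combo hK (z₀ := (p - ((n / (m - 1) : ℝ) : ℂ) * q) / 2) hN
      (h.side0 hK e1 e2) (a := 1 / (2 * m - 1)) (b := (2 * m - 2) / (2 * m - 1))
      (by
        have h5 := h.side1 hK e3 e4
        convert h5 using 1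
        push_cast
        ring) (by positivity) (div_nonneg (by linarith) hpos2.le) (by field_simp; ring)
    convert this using 1
    push_cast at hc1 hc2 ⊢
    field_simp
    ring

/-- Translates of `K` by twice the lattice of an inscribed parallelogram. -/
theorem Ins.trans (hK : Convex ℝ K) (h : Ins K o p q) (hpq : cr p q ≠ 0) (hp : ¬ NN K p)
    (hq : ¬ NN K q) {m n : ℤ} (hmn : ¬ (m = 0 ∧ n = 0)) : ¬ NN K (m * p + n * q) := by
  intro hN
  have hd1 : ¬ NN K (p + q) := fun ⟨x, h1, h2⟩ => h.diag hK hpq h1 h2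
  have hd2 : ¬ NN K (p - q) := fun ⟨x, h1, h2⟩ => h.flip.diag hK
    (by
      have : cr p (-q) = -cr p q := by unfold cr; simp; ring
      rw [this]; exact neg_ne_zero.2 hpq) h1 (by rw [← sub_eq_add_neg]; exact h2)
  have hN' := hN.neg
  have hN2 : NN K (n * q + m * p) := by rw [add_comm]; exact hN
  have hN2' := hN2.neg
  have e1 : -((m : ℂ) * p + n * q) = ((-m : ℤ) : ℂ) * p + ((-n : ℤ) : ℂ) * q := by push_cast; ring
  have e2 : -((n : ℂ) * q + m * p) = ((-n : ℤ) : ℂ) * q + ((-m : ℤ) : ℂ) * p := by push_cast; ring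
  rw [e1] at hN'
  rw [e2] at hN2'
  rcases lt_trichotomy |m| |n| with hlt | heq | hlt
  · rcases lt_trichotomy n 0 with h0 | h0 | h0
    · rw [abs_of_neg h0] at hlt
      obtain ⟨h3, h4⟩ := abs_lt.1 hlt
      exact h.swap.trans_aux hK hq (by omega) (by omega) (by omega) hN2'
    · subst h0
      rw [abs_zero] at hlt
      exact absurd hlt (not_lt.2 (abs_nonneg m))
    · rw [abs_of_pos h0] at hlt
      obtain ⟨h3, h4⟩ := abs_lt.1 hlt
      exact h.swap.trans_aux hK hq h0 h3 h4 hN2
  · rcases lt_trichotomy m 0 with h0 | h0 | h0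
    · rcases abs_eq_abs.1 heq with h3 | h3
      · subst h3
        refine hd1 (NN.scale hK (k := -m) ?_ ?_)
        · have : (1 : ℤ) ≤ -m := by omega
          exact_mod_cast this
        · convert hN' using 1
          push_cast
          ring
      · have h4 : n = -m := by omega
        subst h4
        refine hd2 (NN.scale hK (k := -m) ?_ ?_)
        · have : (1 : ℤ) ≤ -m := by omega
          exact_mod_cast this
        · convert hN' using 1
          push_cast
          ring
    · subst h0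
      rw [abs_zero] at heq
      exact hmn ⟨rfl, abs_eq_zero.1 heq.symm⟩
    · rcases abs_eq_abs.1 heq with h3 | h3
      · subst h3
        refine hd1 (NN.scale hK (k := m) ?_ ?_)
        · have : (1 : ℤ) ≤ m := h0
          exact_mod_cast this
        · convert hN using 1
          push_cast
          ring
      · have h4 : n = -m := by omega
        subst h4
        refine hd2 (NN.scale hK (k := m) ?_ ?_)
        · have : (1 : ℤ) ≤ m := h0
          exact_mod_cast this
        · convert hN using 1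
          push_cast
          ring
  · rcases lt_trichotomy m 0 with h0 | h0 | h0
    · rw [abs_of_neg h0] at hlt
      obtain ⟨h3, h4⟩ := abs_lt.1 hlt
      exact h.trans_aux hK hp (by omega) (by omega) (by omega) hN'
    · subst h0
      rw [abs_zero] at hlt
      exact absurd hlt (not_lt.2 (abs_nonneg n))
    · rw [abs_of_pos h0] at hlt
      obtain ⟨h3, h4⟩ := abs_lt.1 hlt
      exact h.trans_aux hK hp h0 h3 h4 hN

end Pool.H94.DL
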