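import Pool.Agent.H94.DL.Fam
import Pool.Agent.H94.DL.Exist

/-!
# Transfer to the Euclidean plane
-/

set_option autoImplicit false

namespace Pool.H94.DL

open Set MeasureTheory Filter Topology Metric

/-- the isometry of `ℂ` and the Euclidean plane -/
noncomputable def LL : ℂ ≃ₗᵢ[ℝ] E2 := Complex.orthonormalBasisOneI.repr

/-- conjugate of an isometry of `ℂ` -/
noncomputable def cj (e : ℂ ≃ᵢ ℂ) : E2 ≃ᵢ E2 :=
  LL.symm.toIsometryEquiv.trans (e.trans LL.toIsometryEquiv)

theorem cj_image (e : ℂ ≃ᵢ ℂ) (K : Set E2) : cj e '' K = LL '' (e '' (LL ⁻¹' K)) := by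
  ext z
  constructor
  · rintro ⟨x, hx, rfl⟩
    refine ⟨e (LL.symm x), ⟨LL.symm x, ?_, rfl⟩, rfl⟩
    show LL (LL.symm x) ∈ K
    rw [LL.apply_symm_apply]
    exact hx
  · rintro ⟨_, ⟨x, hx, rfl⟩, rfl⟩
    refine ⟨LL x, hx, ?_⟩
    show LL (e (LL.symm (LL x))) = LL (e x)
    rw [LL.symm_apply_apply]

theorem volume_LL_image (S : Set ℂ) : volume (LL '' S) = volume S := by
  have h1 : MeasurePreserving LL.symm := LL.symm.measurePreserving
  have h2 : LL '' S = LL.symm ⁻¹' S := by
    ext z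
    constructor
    · rintro ⟨x, hx, rfl⟩
      show LL.symm (LL x) ∈ S
      rw [LL.symm_apply_apply]
      exact hx
    · intro hz
      exact ⟨LL.symm z, hz, LL.apply_symm_apply z⟩
  rw [h2]
  exact h1.measure_preimage_equiv (f := LL.symm.toHomeomorph.toMeasurableEquiv) S

theorem volume_LL_preimage (K : Set E2) : volume (LL ⁻¹' K) = volume K := by
  rw [← volume_LL_image, image_preimage_eq _ LL.surjective]

theorem LL_ball (r : ℝ) : LL '' closedBall 0 r = closedBall 0 r := by
  have := LL.toIsometryEquiv.image_closedBall 0 r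
  simpa using this

theorem cj_packing {ι : Type} {e : ι → ℂ ≃ᵢ ℂ} {K : Set E2} (h : IsPacking (LL ⁻¹' K) e) :
    IsPacking K (fun i => cj (e i)) := by
  intro i j hij
  have h1 := h hij
  have h2 : ∀ S : Set ℂ, interior (LL '' S) = LL '' interior S := fun S =>
    (LL.toHomeomorph.image_interior S).symm
  simp only [cj_image, h2]
  exact (disjoint_image_iff LL.injective).2 h1

theorem cj_density {ι : Type} {e : ι → ℂ ≃ᵢ ℂ} {K : Set E2} {d : ℝ}
    (h : HasDensity (LL ⁻¹' K) e d) : HasDensity K (fun i => cj (e i)) d := by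
  unfold HasDensity at h ⊢
  refine h.congr fun r => ?_
  congr 2
  refine tsum_congr fun i => ?_
  rw [cj_image, ← LL_ball r, ← image_inter LL.injective, volume_LL_image]

theorem convex_pre {K : Set E2} (hc : Convex ℝ K) : Convex ℝ (LL ⁻¹' K) :=
  hc.linear_preimage LL.toLinearEquiv.toLinearMap

theorem compact_pre {K : Set E2} (hk : IsCompact K) : IsCompact (LL ⁻¹' K) :=
  LL.toHomeomorph.isCompact_preimage.2 hk

theorem interior_pre {K : Set E2} (hi : (interior K).Nonempty) :
    (interior (LL ⁻¹' K)).Nonempty := by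
  have : interior (LL ⁻¹' K) = LL ⁻¹' interior K := (LL.toHomeomorph.preimage_interior K).symm
  rw [this]
  obtain ⟨x, hx⟩ := hi
  exact ⟨LL.symm x, by show LL (LL.symm x) ∈ interior K; rw [LL.apply_symm_apply]; exact hx⟩

/-- The double lattice packing of a half-length parallelogram. -/
theorem packing_of_HL {K : Set E2} (hc : Convex ℝ K) (hk : IsCompact K) {a o p q : ℂ}
    (h : HL (LL ⁻¹' K) a o p q) : ∃ e : (ℤ × ℤ) × Bool → E2 ≃ᵢ E2,
      IsPacking K e ∧ HasDensity K e ((volume K).toReal / (2 * cr p q)) := by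
  obtain ⟨R, hR⟩ := (compact_pre hk).isBounded.subset_closedBall 0
  have hR' : ∀ z ∈ LL ⁻¹' K, ‖z‖ ≤ max R 0 := fun z hz =>
    (mem_closedBall_zero_iff.1 (hR hz)).trans (le_max_left _ _)
  refine ⟨fun i => cj (fam o p q i), cj_packing ?_, cj_density ?_⟩
  · exact fam_packing (convex_pre hc) h.ins h.pos.ne' h.np
      (h.ins.not_NN (convex_pre hc) h.pos.ne' h.ma h.mb)
  · have := fam_density (o := o) hR' (le_max_right _ _) h.pos.ne'
    rw [volume_LL_preimage, abs_of_pos h.pos] at this
    exact this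

theorem HL_le {K : Set E2} (hc : Convex ℝ K) (hk : IsCompact K) {a o p q : ℂ}
    (h : HL (LL ⁻¹' K) a o p q) : (volume K).toReal ≤ 2 * cr p q := by
  obtain ⟨e, h1, h2⟩ := packing_of_HL hc hk h
  have h3 := density_le_one hc h1 h2
  have := h.pos
  rwa [div_le_one (by positivity)] at h3

theorem HL_le_density {K : Set E2} (hc : Convex ℝ K) (hk : IsCompact K) {a o p q : ℂ}
    (h : HL (LL ⁻¹' K) a o p q) : (volume K).toReal / (2 * cr p q) ≤ packingDensity K := by
  obtain ⟨e, h1, h2⟩ := packing_of_HL hc hk h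
  exact le_packingDensity hc h1 h2

end Pool.H94.DL
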